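import Pool.Agent.Helper13_FK.Stmts

namespace Pool.Agent.FK.H57

open Pool.Agent.FK NumberField

private theorem cj_sub_zsmul {ι : Type} (K : ι → Type) [∀ a, Field (K a)] [∀ a, NumberField (K a)]
    (e v : RR K) (t : ℕ) (i : Emb K) :
    cj K (e - (t : ℤ) • v) i = cj K e i - t * cj K v i := by
  unfold cj
  simp [Pi.sub_apply, Pi.smul_apply, map_sub, map_mul]

theorem avg (hbox : BoxStmt) : AvgStmt := by
  intro ι _ K _ _ v c hc hv S D H b hH hb hline
  classical
  obtain ⟨hB, -⟩ := hbox ι K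
  have hHr : (1 : ℝ) ≤ H := by exact_mod_cast hH
  have hR0 : 0 ≤ (c + 1) * (H : ℝ) := by positivity
  obtain ⟨hfin, hcard⟩ := hB ((c + 1) * H) hR0
  obtain ⟨hfinH, -⟩ := hB H (by positivity)
  have hfinA : (S ∩ Box K H).Finite := hfinH.subset Set.inter_subset_right
  set A := hfinA.toFinset with hA
  set B := hfin.toFinset with hBdef
  have hmap : ∀ p ∈ A ×ˢ Finset.range H, p.1 - ((p.2 : ℕ) : ℤ) • v ∈ B := by
    rintro ⟨θ, t⟩ hp
    simp only [Finset.mem_product, Finset.mem_range, hA, Set.Finite.mem_toFinset,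
      Set.mem_inter_iff] at hp
    obtain ⟨⟨-, hθ⟩, ht⟩ := hp
    rw [hBdef, Set.Finite.mem_toFinset]
    intro i
    rw [cj_sub_zsmul]
    have h1 : ‖cj K θ i‖ ≤ H := hθ i
    have h2 : ‖(t : ℂ) * cj K v i‖ ≤ H * c := by
      rw [norm_mul, Complex.norm_natCast]
      have : (t : ℝ) ≤ H := by exact_mod_cast ht.le
      exact mul_le_mul this (hv i) (norm_nonneg _) (by positivity)
    calc ‖cj K θ i - (t : ℂ) * cj K v i‖ ≤ ‖cj K θ i‖ + ‖(t : ℂ) * cj K v i‖ := norm_sub_le _ _
      _ ≤ H + H * c := add_le_add h1 h2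
      _ = (c + 1) * H := by ring
  have hsum := Finset.card_eq_sum_card_fiberwise (f := fun p : RR K × ℕ =>
    p.1 - ((p.2 : ℕ) : ℤ) • v) (s := A ×ˢ Finset.range H) (t := B) hmap
  rw [Finset.card_product, Finset.card_range] at hsum
  -- the fibres
  have hfib : ∀ e ∈ B, (((A ×ˢ Finset.range H).filter
      (fun p => p.1 - ((p.2 : ℕ) : ℤ) • v = e)).card : ℝ) ≤
      b + (if e ∈ D then (H : ℝ) else 0) := by
    intro e he
    have hinj : ((A ×ˢ Finset.range H).filter
        (fun p => p.1 - ((p.2 : ℕ) : ℤ) • v = e)).card ≤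
        {t : ℕ | t < H ∧ e + (t : ℤ) • v ∈ S}.ncard := by
      have hf : {t : ℕ | t < H ∧ e + (t : ℤ) • v ∈ S}.Finite :=
        (Set.finite_lt_nat H).subset (fun t ht => ht.1)
      rw [Set.ncard_eq_toFinset_card _ hf]
      refine Finset.card_le_card_of_injOn (fun p => p.2) ?_ ?_
      · rintro ⟨θ, t⟩ hp
        simp only [Finset.coe_filter, Finset.mem_product, Finset.mem_range, Set.mem_setOf_eq, hA,
          Set.Finite.mem_toFinset, Set.mem_inter_iff] at hp
        obtain ⟨⟨⟨hS, -⟩, ht⟩, heq⟩ := hp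
        simp only [Set.Finite.coe_toFinset, Set.mem_setOf_eq]
        refine ⟨ht, ?_⟩
        rw [← heq, sub_add_cancel]
        exact hS
      · rintro ⟨θ, t⟩ hp ⟨θ', t'⟩ hp' htt
        simp only [Finset.coe_filter, Set.mem_setOf_eq] at hp hp' htt
        have e1 := hp.2
        have e2 := hp'.2
        subst htt
        have : θ = θ' := by
          have := e1.trans e2.symm
          exact sub_left_injective this
        rw [this]
    by_cases hD : e ∈ D
    · rw [if_pos hD]
      have hle : {t : ℕ | t < H ∧ e + (t : ℤ) • v ∈ S}.ncard ≤ H := by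
        have hf : ((Finset.range H : Finset ℕ) : Set ℕ).Finite := Finset.finite_toSet _
        have hs : {t : ℕ | t < H ∧ e + (t : ℤ) • v ∈ S} ⊆ ((Finset.range H : Finset ℕ) : Set ℕ) := by
          intro t ht
          simpa using ht.1
        have := Set.ncard_le_ncard hs hf
        rwa [Set.ncard_coe_finset, Finset.card_range] at this
      have : (((A ×ˢ Finset.range H).filter
        (fun p => p.1 - ((p.2 : ℕ) : ℤ) • v = e)).card : ℝ) ≤ H := by
        exact_mod_cast hinj.trans hle
      linarith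
    · rw [if_neg hD, add_zero]
      have he' : e ∈ Box K ((c + 1) * H) := by
        rw [hBdef, Set.Finite.mem_toFinset] at he
        exact he
      exact (by exact_mod_cast hinj : (((A ×ˢ Finset.range H).filter
        (fun p => p.1 - ((p.2 : ℕ) : ℤ) • v = e)).card : ℝ) ≤
        ({t : ℕ | t < H ∧ e + (t : ℤ) • v ∈ S}.ncard : ℝ)).trans (hline e he' hD)
  have hAcard : (S ∩ Box K H).ncard = A.card := Set.ncard_eq_toFinset_card _ hfinA
  have hBcard : (Box K ((c + 1) * H)).ncard = B.card := Set.ncard_eq_toFinset_card _ hfin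
  have hDcard : (∑ e ∈ B, (if e ∈ D then (H : ℝ) else 0)) =
      (D ∩ Box K ((c + 1) * H)).ncard * H := by
    rw [← Finset.sum_filter, Finset.sum_const, nsmul_eq_mul]
    congr 1
    have hfD : (D ∩ Box K ((c + 1) * H)).Finite := hfin.subset Set.inter_subset_right
    rw [Set.ncard_eq_toFinset_card _ hfD]
    congr 1
    congr 1
    ext e
    simp [hBdef, and_comm]
  calc ((S ∩ Box K H).ncard : ℝ) * H = ((A.card * H : ℕ) : ℝ) := by rw [hAcard]; push_cast; ring
    _ = ∑ e ∈ B, (((A ×ˢ Finset.range H).filter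
      (fun p => p.1 - ((p.2 : ℕ) : ℤ) • v = e)).card : ℝ) := by rw [hsum]; push_cast; rfl
    _ ≤ ∑ e ∈ B, (b + (if e ∈ D then (H : ℝ) else 0)) := Finset.sum_le_sum hfib
    _ = B.card * b + (D ∩ Box K ((c + 1) * H)).ncard * H := by
        rw [Finset.sum_add_distrib, hDcard, Finset.sum_const, nsmul_eq_mul]
    _ ≤ (3 * (c + 1) * H) ^ Fintype.card (Emb K) * b + (D ∩ Box K ((c + 1) * H)).ncard * H := by
        gcongr
        rw [← hBcard]
        refine hcard.trans ?_
        gcongr
        nlinarith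

end Pool.Agent.FK.H57
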