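import Pool.Agent.Helper13_FK.Stmts

namespace Pool.Agent.FK.H57

open Pool.Agent.FK

private theorem one_pair (w u : ℂ) (hu : u ≠ 0) (R : ℝ) (hR : 1 ≤ R) (H : ℕ) :
    ({t : ℕ | t < H ∧ ‖w + t * u‖ < R}.ncard : ℝ) ≤ (2 / ‖u‖ + 1) * R := by
  have hu' : 0 < ‖u‖ := norm_pos_iff.2 hu
  set T : Set ℕ := {t : ℕ | t < H ∧ ‖w + t * u‖ < R} with hT
  have hpos : 0 ≤ 2 / ‖u‖ := by positivity
  rcases T.eq_empty_or_nonempty with h | h
  · rw [h, Set.ncard_empty]
    push_cast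
    positivity
  · classical
    obtain ⟨a, haT, hmin⟩ : ∃ a ∈ T, ∀ b ∈ T, a ≤ b := ⟨sInf T, Nat.sInf_mem h, fun b hb => Nat.sInf_le hb⟩
    have hsub : T ⊆ (Finset.Ico a (a + ⌊2 * R / ‖u‖⌋₊ + 1) : Finset ℕ) := by
      intro t ht
      have h1 : a ≤ t := hmin t ht
      have h2 : ((t : ℝ) - a) * ‖u‖ < 2 * R := by
        have e : ((t : ℂ) - a) * u = (w + t * u) - (w + a * u) := by ring
        have e2 : ‖((t : ℂ) - a) * u‖ = ((t : ℝ) - a) * ‖u‖ := by
          rw [norm_mul]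
          congr 1
          have : ((t : ℂ) - a) = (((t : ℝ) - a : ℝ) : ℂ) := by push_cast; rfl
          rw [this, Complex.norm_real, Real.norm_eq_abs, abs_of_nonneg]
          have : (a : ℝ) ≤ t := by exact_mod_cast h1
          linarith
        rw [← e2, e]
        calc ‖(w + t * u) - (w + a * u)‖ ≤ ‖w + t * u‖ + ‖w + a * u‖ := norm_sub_le _ _
          _ < R + R := add_lt_add ht.2 haT.2
          _ = 2 * R := by ring
      have h3 : ((t - a : ℕ) : ℝ) ≤ 2 * R / ‖u‖ := by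
        rw [Nat.cast_sub h1, le_div_iff₀ hu']
        exact h2.le
      have h4 : t - a ≤ ⌊2 * R / ‖u‖⌋₊ := Nat.le_floor h3
      simp only [Finset.coe_Ico, Set.mem_Ico]
      omega
    have hc : T.ncard ≤ ⌊2 * R / ‖u‖⌋₊ + 1 := by
      have := Set.ncard_le_ncard hsub (Finset.finite_toSet _)
      rw [Set.ncard_coe_finset, Nat.card_Ico] at this
      omega
    calc (T.ncard : ℝ) ≤ ((⌊2 * R / ‖u‖⌋₊ + 1 : ℕ) : ℝ) := by exact_mod_cast hc
      _ = (⌊2 * R / ‖u‖⌋₊ : ℝ) + 1 := by push_cast; ring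
      _ ≤ 2 * R / ‖u‖ + 1 := by
          have := Nat.floor_le (show 0 ≤ 2 * R / ‖u‖ by positivity)
          linarith
      _ = 2 / ‖u‖ * R + 1 := by ring
      _ ≤ (2 / ‖u‖ + 1) * R := by nlinarith

theorem le : LeStmt := by
  intro n v hv
  refine ⟨∑ p : Fin n × Fin n, (2 / ‖v p.1 - v p.2‖ + 1), ?_⟩
  intro δ H z hδ hδ1 hH
  set R : ℝ := (H : ℝ) ^ (1 - δ) with hRdef
  have hR : 1 ≤ R := Real.one_le_rpow (by exact_mod_cast hH) (by linarith)
  classical
  let F : Fin n × Fin n → Set ℕ := fun p =>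
    {t : ℕ | p.1 ≠ p.2 ∧ t < H ∧ ‖(z p.1 - z p.2) + t * (v p.1 - v p.2)‖ < R}
  have hsub : {t : ℕ | t < H ∧ ∃ i j, i ≠ j ∧ ‖(z i + t * v i) - (z j + t * v j)‖ < R} ⊆
      ⋃ p ∈ (Finset.univ : Finset (Fin n × Fin n)), F p := by
    rintro t ⟨ht, i, j, hij, hn⟩
    simp only [Finset.mem_univ, Set.iUnion_true, Set.mem_iUnion]
    refine ⟨(i, j), hij, ht, ?_⟩
    have : (z i - z j) + (t : ℂ) * (v i - v j) = (z i + t * v i) - (z j + t * v j) := by ring
    simpa [this] using hn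
  have hfinF : ∀ p, (F p).Finite := fun p =>
    (Set.finite_lt_nat H).subset (fun t ht => ht.2.1)
  have hfin : (⋃ p ∈ (Finset.univ : Finset (Fin n × Fin n)), F p).Finite :=
    Set.Finite.biUnion (Finset.finite_toSet _) (fun p _ => hfinF p)
  have h1 : ({t : ℕ | t < H ∧ ∃ i j, i ≠ j ∧
      ‖(z i + t * v i) - (z j + t * v j)‖ < R}.ncard : ℝ) ≤
      ∑ p : Fin n × Fin n, ((F p).ncard : ℝ) := by
    have a1 := Set.ncard_le_ncard hsub hfin
    have a2 : (⋃ p ∈ (Finset.univ : Finset (Fin n × Fin n)), F p).ncard ≤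
        ∑ p : Fin n × Fin n, (F p).ncard := by
      have : (⋃ p ∈ (Finset.univ : Finset (Fin n × Fin n)), F p) =
          ((Finset.univ : Finset (Fin n × Fin n)).biUnion (fun p => (hfinF p).toFinset) : Set ℕ) := by
        ext x
        simp
      rw [this, Set.ncard_coe_finset]
      refine Finset.card_biUnion_le.trans (le_of_eq ?_)
      refine Finset.sum_congr rfl (fun p _ => ?_)
      rw [Set.ncard_eq_toFinset_card (F p) (hfinF p)]
    exact_mod_cast a1.trans a2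
  refine h1.trans ?_
  rw [Finset.sum_mul]
  refine Finset.sum_le_sum (fun p _ => ?_)
  by_cases hp : p.1 = p.2
  · have : F p = ∅ := by
      ext t
      simp [F, hp]
    rw [this, Set.ncard_empty]
    push_cast
    positivity
  · have hu : v p.1 - v p.2 ≠ 0 := sub_ne_zero.2 (fun h => hp (hv h))
    have := one_pair (z p.1 - z p.2) (v p.1 - v p.2) hu R hR H
    have e : F p = {t : ℕ | t < H ∧ ‖(z p.1 - z p.2) + t * (v p.1 - v p.2)‖ < R} := by
      ext t
      simp [F, hp]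
    rw [e]
    exact this

end Pool.Agent.FK.H57
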